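import Pool.Agent.N659.HB.Stm5

/-!
# Project NP, part TAN2: level functions with law close to the Cauchy law

`ψ(φ) = - sin(2πφ) / (m max(1 - cos 2πφ, 1 - cos πτ))` with `m = cot(πτ/2)`: an odd Lipschitz
function on the circle, equal to `- cot(πφ) / m` for `τ/2 ≤ φ ≤ 1 - τ/2`.
-/

set_option autoImplicit false

namespace Pool.Agent.N457.NP.TAN2

open MeasureTheory Set Pool.Agent.W792.LL Pool.Agent.W792.WA Pool.Agent.N659.HB

noncomputable section

/-- the denominator -/
def dn (α θ : ℝ) : ℝ := max (1 - Real.cos θ) (1 - Real.cos α)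

/-- the truncated cotangent of `θ / 2` -/
def T (α θ : ℝ) : ℝ := -(Real.sin θ / dn α θ)

/-- its maximum -/
def mm (α : ℝ) : ℝ := Real.sin α / (1 - Real.cos α)

section
variable {α : ℝ} (h0 : 0 < α) (h1 : α ≤ Real.pi / 2)
include h0 h1

theorem c0_pos : 0 < 1 - Real.cos α := by
  have h := Real.cos_lt_cos_of_nonneg_of_le_pi le_rfl
    (by linarith [Real.pi_pos] : α ≤ Real.pi) h0
  rw [Real.cos_zero] at h
  linarith

theorem cos_nn : 0 ≤ Real.cos α :=
  Real.cos_nonneg_of_neg_pi_div_two_le_of_le (by linarith [Real.pi_pos]) h1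

theorem sin_p : 0 < Real.sin α :=
  Real.sin_pos_of_pos_of_lt_pi h0 (by linarith [Real.pi_pos])

theorem mm_pos : 0 < mm α := div_pos (sin_p h0 h1) (c0_pos h0 h1)

theorem dn_ge (θ : ℝ) : 1 - Real.cos α ≤ dn α θ := le_max_right _ _

theorem dn_pos (θ : ℝ) : 0 < dn α θ := (c0_pos h0 h1).trans_le (le_max_right _ _)

theorem T_le (θ : ℝ) : |T α θ| ≤ mm α := by
  have hc := c0_pos h0 h1
  have hs := sin_p h0 h1
  have hd := dn_pos h0 h1 θ
  have e1 := Real.sin_sq_add_cos_sq θ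
  have e2 := Real.sin_sq_add_cos_sq α
  have hθ1 := Real.cos_le_one θ
  unfold T mm
  rw [abs_neg, abs_div, abs_of_pos hd, div_le_div_iff₀ hd hc]
  have key : |Real.sin θ * (1 - Real.cos α)| ≤ Real.sin α * dn α θ := by
    refine abs_le_of_sq_le_sq ?_ (mul_pos hs hd).le
    rcases le_total (Real.cos θ) (Real.cos α) with h | h
    · have hdn : dn α θ = 1 - Real.cos θ := max_eq_left (by linarith)
      rw [hdn, mul_pow, mul_pow]
      have e3 : Real.sin θ ^ 2 = (1 - Real.cos θ) * (1 + Real.cos θ) := by linear_combination e1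
      have e4 : Real.sin α ^ 2 = (1 - Real.cos α) * (1 + Real.cos α) := by linear_combination e2
      rw [e3, e4]
      have e5 : (1 - Real.cos α) * (1 + Real.cos α) * (1 - Real.cos θ) ^ 2 -
          (1 - Real.cos θ) * (1 + Real.cos θ) * (1 - Real.cos α) ^ 2 =
          (1 - Real.cos θ) * (1 - Real.cos α) * (2 * (Real.cos α - Real.cos θ)) := by ring
      have e6 : 0 ≤ (1 - Real.cos θ) * (1 - Real.cos α) * (2 * (Real.cos α - Real.cos θ)) :=
        mul_nonneg (mul_nonneg (by linarith) hc.le) (by linarith)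
      linarith
    · have hdn : dn α θ = 1 - Real.cos α := max_eq_right (by linarith)
      rw [hdn, mul_pow, mul_pow]
      have hn := cos_nn h0 h1
      have e3 : Real.sin θ ^ 2 ≤ Real.sin α ^ 2 := by nlinarith
      exact mul_le_mul_of_nonneg_right e3 (sq_nonneg _)
  rwa [abs_mul, abs_of_pos hc] at key

theorem T_lip (s t : ℝ) : |T α s - T α t| ≤
    (1 / (1 - Real.cos α) + 1 / (1 - Real.cos α) ^ 2) * |s - t| := by
  have hc := c0_pos h0 h1
  have hs := dn_pos h0 h1 s
  have ht := dn_pos h0 h1 t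
  have a1 : |Real.sin s - Real.sin t| ≤ |s - t| := by
    have := Real.lipschitzWith_sin.dist_le_mul s t
    simpa [Real.dist_eq] using this
  have a2 : |Real.cos s - Real.cos t| ≤ |s - t| := by
    have := Real.lipschitzWith_cos.dist_le_mul s t
    simpa [Real.dist_eq] using this
  have a3 : |dn α s - dn α t| ≤ |s - t| := by
    refine (abs_max_sub_max_le_abs _ _ _).trans (le_trans (le_of_eq ?_) a2)
    rw [abs_sub_comm]
    congr 1
    ring
  have e : T α s - T α t = -((Real.sin s - Real.sin t) / dn α s) +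
      Real.sin t * (dn α s - dn α t) / (dn α s * dn α t) := by
    unfold T
    field_simp
    ring
  rw [e]
  refine (abs_add_le _ _).trans ?_
  rw [abs_neg, abs_div, abs_div, abs_mul, abs_mul, abs_of_pos hs, abs_of_pos ht, add_mul]
  refine add_le_add ?_ ?_
  · calc |Real.sin s - Real.sin t| / dn α s ≤ |s - t| / (1 - Real.cos α) :=
        div_le_div₀ (abs_nonneg _) a1 hc (dn_ge h0 h1 s)
      _ = _ := by ring
  · calc |Real.sin t| * |dn α s - dn α t| / (dn α s * dn α t)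
        ≤ (1 * |s - t|) / ((1 - Real.cos α) * (1 - Real.cos α)) := by
          refine div_le_div₀ (by positivity) ?_ (mul_pos hc hc) ?_
          · exact mul_le_mul (Real.abs_sin_le_one t) a3 (abs_nonneg _) zero_le_one
          · exact mul_le_mul (dn_ge h0 h1 s) (dn_ge h0 h1 t) hc.le hs.le
      _ = _ := by rw [pow_two]; ring

theorem T_cont : Continuous (T α) := by
  have h : ∀ θ, dn α θ ≠ 0 := fun θ => (dn_pos h0 h1 θ).ne'
  have h2 : Continuous (dn α) := by unfold dn; fun_prop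
  exact (Real.continuous_sin.div h2 h).neg

theorem two_pi_eq (φ : ℝ) : 2 * Real.pi * φ = 2 * (Real.pi * φ) := by ring

theorem lt_one_of {φ : ℝ} (hφ : φ ≤ 1) (h : Real.cos (2 * Real.pi * φ) ≤ Real.cos α) :
    φ < 1 := by
  rcases hφ.lt_or_eq with h2 | h2
  · exact h2
  · exfalso
    rw [h2, mul_one, Real.cos_two_pi] at h
    linarith [c0_pos h0 h1]

omit h0 h1 in
theorem sin_pi_pos {φ : ℝ} (hφ0 : 0 < φ) (hφ1 : φ < 1) : 0 < Real.sin (Real.pi * φ) :=
  Real.sin_pos_of_pos_of_lt_pi (mul_pos Real.pi_pos hφ0) (by nlinarith [Real.pi_pos])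

omit h0 h1 in
theorem one_sub_cos (φ : ℝ) : 1 - Real.cos (2 * Real.pi * φ) = 2 * Real.sin (Real.pi * φ) ^ 2 := by
  rw [show 2 * Real.pi * φ = 2 * (Real.pi * φ) by ring, Real.cos_two_mul]
  have := Real.sin_sq_add_cos_sq (Real.pi * φ)
  linarith

omit h0 h1 in
theorem sin_eq (φ : ℝ) : Real.sin (2 * Real.pi * φ) =
    2 * Real.sin (Real.pi * φ) * Real.cos (Real.pi * φ) := by
  rw [show 2 * Real.pi * φ = 2 * (Real.pi * φ) by ring, Real.sin_two_mul]

omit h0 h1 in
theorem T_reg {φ : ℝ} (hφ0 : 0 < φ) (hφ1 : φ < 1)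
    (h : Real.cos (2 * Real.pi * φ) ≤ Real.cos α) :
    T α (2 * Real.pi * φ) = -(Real.cos (Real.pi * φ) / Real.sin (Real.pi * φ)) := by
  have hs := sin_pi_pos hφ0 hφ1
  have hdn : dn α (2 * Real.pi * φ) = 1 - Real.cos (2 * Real.pi * φ) :=
    max_eq_left (by linarith)
  unfold T
  rw [hdn, one_sub_cos, sin_eq]
  congr 1
  field_simp

theorem T_small {φ : ℝ} (h : Real.cos α < Real.cos (2 * Real.pi * φ)) :
    T α (2 * Real.pi * φ) = -(Real.sin (2 * Real.pi * φ) / (1 - Real.cos α)) := by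
  have hdn : dn α (2 * Real.pi * φ) = 1 - Real.cos α := max_eq_right (by linarith)
  unfold T
  rw [hdn]

/-- the level sets are finite -/
theorem level (a : ℝ) : {φ : ℝ | φ ∈ Ioc (0 : ℝ) 1 ∧ T α (2 * Real.pi * φ) = a}.Finite := by
  have hπ := Real.pi_pos
  have hc := c0_pos h0 h1
  have hn := cos_nn h0 h1
  have hsub : {φ : ℝ | φ ∈ Ioc (0 : ℝ) 1 ∧ T α (2 * Real.pi * φ) = a} ⊆
      {φ : ℝ | (φ ∈ Ioc (0 : ℝ) 1 ∧ T α (2 * Real.pi * φ) = a) ∧
        Real.cos (2 * Real.pi * φ) ≤ Real.cos α} ∪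
      ({φ : ℝ | (φ ∈ Ioc (0 : ℝ) 1 ∧ T α (2 * Real.pi * φ) = a) ∧
        Real.cos α < Real.cos (2 * Real.pi * φ) ∧ φ ≤ 1 / 2} ∪
      {φ : ℝ | (φ ∈ Ioc (0 : ℝ) 1 ∧ T α (2 * Real.pi * φ) = a) ∧
        Real.cos α < Real.cos (2 * Real.pi * φ) ∧ 1 / 2 < φ}) := by
    intro φ hφ
    rcases le_or_gt (Real.cos (2 * Real.pi * φ)) (Real.cos α) with h | h
    · exact Or.inl ⟨hφ, h⟩
    · rcases le_or_gt φ (1 / 2) with h2 | h2
      · exact Or.inr (Or.inl ⟨hφ, h, h2⟩)
      · exact Or.inr (Or.inr ⟨hφ, h, h2⟩)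
  refine Set.Finite.subset (Set.Finite.union (Set.Subsingleton.finite ?_)
    (Set.Finite.union (Set.Subsingleton.finite ?_) (Set.Subsingleton.finite ?_))) hsub
  · rintro x ⟨⟨⟨x0, x1⟩, hx⟩, hxc⟩ y ⟨⟨⟨y0, y1⟩, hy⟩, hyc⟩
    have x1' := lt_one_of h0 h1 x1 hxc
    have y1' := lt_one_of h0 h1 y1 hyc
    have sx := sin_pi_pos x0 x1'
    have sy := sin_pi_pos y0 y1'
    rw [T_reg x0 x1' hxc] at hx
    rw [T_reg y0 y1' hyc, ← hx] at hy
    have e1 : Real.cos (Real.pi * y) * Real.sin (Real.pi * x) =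
        Real.cos (Real.pi * x) * Real.sin (Real.pi * y) := by
      have := neg_injective hy
      rwa [div_eq_div_iff sy.ne' sx.ne'] at this
    have e2 : Real.sin (Real.pi * x - Real.pi * y) = 0 := by
      rw [Real.sin_sub]; linarith
    have e3 := (Real.sin_eq_zero_iff_of_lt_of_lt (by nlinarith) (by nlinarith)).1 e2
    have e4 : Real.pi * (x - y) = 0 := by linarith
    rcases mul_eq_zero.1 e4 with h | h
    · exact absurd h hπ.ne'
    · linarith
  · rintro x ⟨⟨⟨x0, x1⟩, hx⟩, hxc, x2⟩ y ⟨⟨⟨y0, y1⟩, hy⟩, hyc, y2⟩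
    rw [T_small h0 h1 hxc] at hx
    rw [T_small h0 h1 hyc, ← hx] at hy
    have e1 : Real.sin (2 * Real.pi * y) = Real.sin (2 * Real.pi * x) := by
      have := neg_injective hy
      rwa [div_left_inj' hc.ne'] at this
    have hle : ∀ z : ℝ, 0 < z → z ≤ 1 / 2 → Real.cos α < Real.cos (2 * Real.pi * z) →
        2 * Real.pi * z ∈ Icc (-(Real.pi / 2)) (Real.pi / 2) := by
      intro z z0 z1 z2
      refine ⟨by nlinarith, ?_⟩
      by_contra hcon
      push Not at hcon
      have := Real.cos_nonpos_of_pi_div_two_le_of_le hcon.le (by nlinarith)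
      linarith
    have e2 := Real.injOn_sin (hle y y0 y2 hyc) (hle x x0 x2 hxc) e1
    have e4 : 2 * Real.pi * (x - y) = 0 := by linarith
    rcases mul_eq_zero.1 e4 with h | h
    · exact absurd h (by positivity)
    · linarith
  · rintro x ⟨⟨⟨x0, x1⟩, hx⟩, hxc, x2⟩ y ⟨⟨⟨y0, y1⟩, hy⟩, hyc, y2⟩
    rw [T_small h0 h1 hxc] at hx
    rw [T_small h0 h1 hyc, ← hx] at hy
    have e1 : Real.sin (2 * Real.pi * y) = Real.sin (2 * Real.pi * x) := by
      have := neg_injective hy
      rwa [div_left_inj' hc.ne'] at this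
    have hle : ∀ z : ℝ, 1 / 2 < z → z ≤ 1 → Real.cos α < Real.cos (2 * Real.pi * z) →
        2 * Real.pi * z - 2 * Real.pi ∈ Icc (-(Real.pi / 2)) (Real.pi / 2) := by
      intro z z0 z1 z2
      refine ⟨?_, by nlinarith⟩
      by_contra hcon
      push Not at hcon
      have h3 := Real.cos_nonpos_of_pi_div_two_le_of_le
        (show Real.pi / 2 ≤ 2 * Real.pi - 2 * Real.pi * z by linarith) (by nlinarith)
      rw [Real.cos_two_pi_sub] at h3
      linarith
    have e2 := Real.injOn_sin (hle y y2 y1 hyc) (hle x x2 x1 hxc) (by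
      rw [Real.sin_sub_two_pi, Real.sin_sub_two_pi, e1])
    have e4 : 2 * Real.pi * (x - y) = 0 := by linarith
    rcases mul_eq_zero.1 e4 with h | h
    · exact absurd h (by positivity)
    · linarith

/-- `x cos x ≤ sin x` -/
theorem mm_le : mm α ≤ 2 / α := by
  unfold mm
  rw [div_le_div_iff₀ (c0_pos h0 h1) h0]
  have hx0 : 0 < α / 2 := by linarith
  have hx1 : α / 2 < Real.pi / 2 := by linarith [Real.pi_pos]
  have ht := Real.lt_tan hx0 hx1
  have hcos : 0 < Real.cos (α / 2) :=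
    Real.cos_pos_of_mem_Ioo ⟨by linarith [Real.pi_pos], hx1⟩
  have hsin : 0 < Real.sin (α / 2) :=
    Real.sin_pos_of_pos_of_lt_pi hx0 (by linarith [Real.pi_pos])
  rw [Real.tan_eq_sin_div_cos, lt_div_iff₀ hcos] at ht
  have e1 : Real.sin α = 2 * Real.sin (α / 2) * Real.cos (α / 2) := by
    rw [← Real.sin_two_mul]; congr 1; ring
  have e2 : Real.cos α = 2 * Real.cos (α / 2) ^ 2 - 1 := by
    rw [← Real.cos_two_mul]; congr 1; ring
  have e3 := Real.sin_sq_add_cos_sq (α / 2)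
  rw [e1, e2]
  nlinarith [mul_pos hsin hx0, mul_lt_mul_of_pos_left ht hsin]

/-- the bound near zero -/
theorem T_le' {φ : ℝ} (hφ0 : 0 < φ) (hφ1 : φ ≤ 1 / 2) :
    |T α (2 * Real.pi * φ)| ≤ 1 / (Real.pi * φ) := by
  have hπ := Real.pi_pos
  have hs := sin_pi_pos hφ0 (by linarith : φ < 1)
  have hcos : 0 ≤ Real.cos (Real.pi * φ) :=
    Real.cos_nonneg_of_neg_pi_div_two_le_of_le (by nlinarith) (by nlinarith)
  have hdn : 1 - Real.cos (2 * Real.pi * φ) ≤ dn α (2 * Real.pi * φ) := le_max_left _ _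
  rw [one_sub_cos] at hdn
  have h2 : 0 < 2 * Real.sin (Real.pi * φ) ^ 2 := by positivity
  have key : Real.pi * φ * Real.cos (Real.pi * φ) ≤ Real.sin (Real.pi * φ) := by
    rcases hcos.lt_or_eq with h | h
    · have hlt : Real.pi * φ < Real.pi / 2 := by
        by_contra hcon
        push Not at hcon
        have h3 := Real.cos_nonpos_of_pi_div_two_le_of_le hcon (by nlinarith)
        linarith
      have ht := Real.lt_tan (mul_pos hπ hφ0) hlt
      rw [Real.tan_eq_sin_div_cos, lt_div_iff₀ h] at ht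
      exact ht.le
    · rw [← h, mul_zero]
      exact hs.le
  unfold T
  rw [abs_neg, abs_div, abs_of_pos (dn_pos h0 h1 _), sin_eq, abs_mul, abs_mul,
    abs_of_pos (by norm_num : (0 : ℝ) < 2), abs_of_pos hs, abs_of_nonneg hcos]
  have e1 : 2 * Real.sin (Real.pi * φ) * Real.cos (Real.pi * φ) / dn α (2 * Real.pi * φ) ≤
      2 * Real.sin (Real.pi * φ) * Real.cos (Real.pi * φ) / (2 * Real.sin (Real.pi * φ) ^ 2) :=
    div_le_div_of_nonneg_left (by positivity) h2 hdn
  refine e1.trans ?_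
  rw [div_le_div_iff₀ h2 (by positivity)]
  nlinarith [mul_le_mul_of_nonneg_left key hs.le]

/-- the level function on the line -/
theorem per : Function.Periodic (fun φ : ℝ => T α (2 * Real.pi * φ) / mm α) 1 := by
  intro φ
  have e : 2 * Real.pi * (φ + 1) = 2 * Real.pi * φ + 2 * Real.pi := by ring
  simp only
  unfold T dn
  rw [e, Real.sin_add_two_pi, Real.cos_add_two_pi]

end

/-- the level function on the circle -/
def psi (α : ℝ) (h0 : 0 < α) (h1 : α ≤ Real.pi / 2) : C(UnitAddCircle, ℝ) where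
  toFun := (per (α := α) h0 h1).lift
  continuous_toFun := continuous_coinduced_dom.mpr (by
    show Continuous (fun φ : ℝ => T α (2 * Real.pi * φ) / mm α)
    exact ((T_cont h0 h1).comp (by fun_prop)).div_const _)

theorem psi_coe (α : ℝ) (h0 : 0 < α) (h1 : α ≤ Real.pi / 2) (φ : ℝ) :
    psi α h0 h1 (φ : UnitAddCircle) = T α (2 * Real.pi * φ) / mm α := rfl

theorem T_odd (α φ : ℝ) : T α (2 * Real.pi * (1 - φ)) = -T α (2 * Real.pi * φ) := by
  have e : 2 * Real.pi * (1 - φ) = 2 * Real.pi - 2 * Real.pi * φ := by ring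
  unfold T dn
  rw [e, Real.sin_two_pi_sub, Real.cos_two_pi_sub, neg_div]

/-- the Cauchy law is the law of `- cot (π φ)` -/
theorem cauchy (g : ℝ → ℂ) :
    ∫ φ in Ioo (0 : ℝ) 1, g (-(Real.cos (Real.pi * φ) / Real.sin (Real.pi * φ))) =
      ∫ a, g a ∂(ProbabilityTheory.cauchyMeasure 0 1) := by
  have hπ := Real.pi_pos
  set F : ℝ → ℝ := fun a => Real.arctan a / Real.pi + 1 / 2 with hF
  have hder : ∀ a ∈ (univ : Set ℝ), HasDerivWithinAt F (1 / (1 + a ^ 2) / Real.pi) univ a := by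
    intro a _
    exact (((Real.hasDerivAt_arctan a).div_const Real.pi).add_const (1 / 2)).hasDerivWithinAt
  have hinj : InjOn F univ := by
    intro a _ b _ hab
    simp only [hF] at hab
    have h2 : Real.arctan a = Real.arctan b := by
      have h3 : Real.arctan a / Real.pi = Real.arctan b / Real.pi := by linarith
      rwa [div_left_inj' hπ.ne'] at h3
    exact Real.arctan_injective h2
  have himg : F '' univ = Ioo (0 : ℝ) 1 := by
    ext φ
    constructor
    · rintro ⟨a, -, rfl⟩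
      have h1 := Real.neg_pi_div_two_lt_arctan a
      have h2 := Real.arctan_lt_pi_div_two a
      constructor
      · show 0 < Real.arctan a / Real.pi + 1 / 2
        have : -(1 / 2) < Real.arctan a / Real.pi := by
          rw [lt_div_iff₀ hπ]; linarith
        linarith
      · show Real.arctan a / Real.pi + 1 / 2 < 1
        have : Real.arctan a / Real.pi < 1 / 2 := by
          rw [div_lt_iff₀ hπ]; linarith
        linarith
    · rintro ⟨hφ0, hφ1⟩
      refine ⟨Real.tan (Real.pi * (φ - 1 / 2)), mem_univ _, ?_⟩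
      simp only [hF]
      rw [Real.arctan_tan (by nlinarith) (by nlinarith)]
      field_simp
      ring
  rw [← himg, integral_image_eq_integral_abs_deriv_smul MeasurableSet.univ hder hinj]
  rw [ProbabilityTheory.cauchyMeasure_of_scale_ne_zero 0 one_ne_zero]
  have hw : ProbabilityTheory.cauchyPDF 0 1 =
      fun x => ENNReal.ofReal (ProbabilityTheory.cauchyPDFReal 0 1 x) := rfl
  rw [integral_withDensity_eq_integral_toReal_smul (ProbabilityTheory.measurable_cauchyPDF 0 1)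
    (Filter.Eventually.of_forall fun x => by rw [hw]; exact ENNReal.ofReal_lt_top)]
  rw [setIntegral_univ]
  refine integral_congr_ae (Filter.Eventually.of_forall fun a => ?_)
  simp only
  have e1 : -(Real.cos (Real.pi * F a) / Real.sin (Real.pi * F a)) = a := by
    have e2 : Real.pi * F a = Real.arctan a + Real.pi / 2 := by
      simp only [hF]
      field_simp
    rw [e2, Real.cos_add_pi_div_two, Real.sin_add_pi_div_two, neg_div, neg_neg,
      ← Real.tan_eq_sin_div_cos, Real.tan_arctan]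
  have e3 : (ProbabilityTheory.cauchyPDF 0 1 a).toReal = |1 / (1 + a ^ 2) / Real.pi| := by
    rw [hw]
    simp only
    rw [ENNReal.toReal_ofReal (ProbabilityTheory.cauchyPDF_pos 0 one_ne_zero a).le,
      ProbabilityTheory.cauchyPDFReal_def, abs_of_pos (by positivity)]
    simp only [NNReal.coe_one, sub_zero, one_pow, mul_one]
    rw [add_comm (a ^ 2)]
    field_simp
  rw [e1, e3]

/-- the short part of the circle -/
theorem short {τ : ℝ} (h0 : 0 < τ) (h1 : τ ≤ 1 / 2) :
    {φ : ℝ | φ ∈ Ioc (0 : ℝ) 1 ∧ Real.cos (Real.pi * τ) < Real.cos (2 * Real.pi * φ)} ⊆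
      Ioc 0 (τ / 2) ∪ Ioc (1 - τ / 2) 1 := by
  have hπ := Real.pi_pos
  rintro φ ⟨⟨hφ0, hφ1⟩, hφ⟩
  rcases le_or_gt φ (1 / 2) with h | h
  · left
    refine ⟨hφ0, ?_⟩
    by_contra hcon
    push Not at hcon
    have := Real.cos_le_cos_of_nonneg_of_le_pi (x := Real.pi * τ) (y := 2 * Real.pi * φ)
      (by positivity) (by nlinarith) (by nlinarith)
    linarith
  · right
    refine ⟨?_, hφ1⟩
    by_contra hcon
    push Not at hcon
    have := Real.cos_le_cos_of_nonneg_of_le_pi (x := Real.pi * τ)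
      (y := 2 * Real.pi - 2 * Real.pi * φ) (by positivity) (by nlinarith) (by nlinarith)
    rw [Real.cos_two_pi_sub] at this
    linarith

theorem vol_short {τ : ℝ} (h0 : 0 < τ) (h1 : τ ≤ 1 / 2) :
    volume {φ : ℝ | φ ∈ Ioc (0 : ℝ) 1 ∧ Real.cos (Real.pi * τ) < Real.cos (2 * Real.pi * φ)} ≤
      ENNReal.ofReal τ := by
  refine (measure_mono (short h0 h1)).trans ((measure_union_le _ _).trans ?_)
  rw [Real.volume_Ioc, Real.volume_Ioc, ← ENNReal.ofReal_add (by linarith) (by linarith)]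
  refine ENNReal.ofReal_le_ofReal ?_
  linarith

/-- comparison of the laws -/
theorem close {γ τ : ℝ} (h0 : 0 < τ) (h1 : τ ≤ 1 / 2) (f : ℝ → ℂ) (F : ℝ) (hf : Measurable f)
    (hF : ∀ a, ‖f a‖ ≤ F) :
    ‖(∫ φ in Ioc (0 : ℝ) 1, f (γ * T (Real.pi * τ) (2 * Real.pi * φ))) -
      ∫ a, f (γ * a) ∂(ProbabilityTheory.cauchyMeasure 0 1)‖ ≤ 2 * τ * F := by
  have hπ := Real.pi_pos
  have hα0 : 0 < Real.pi * τ := mul_pos hπ h0
  have hα1 : Real.pi * τ ≤ Real.pi / 2 := by nlinarith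
  have hF0 : 0 ≤ F := (norm_nonneg _).trans (hF 0)
  rw [← cauchy (fun a => f (γ * a)), ← integral_Ioc_eq_integral_Ioo]
  have hm1 : Measurable fun φ : ℝ => f (γ * T (Real.pi * τ) (2 * Real.pi * φ)) :=
    hf.comp ((((T_cont hα0 hα1).measurable).comp (by fun_prop)).const_mul γ)
  have hm2 : Measurable fun φ : ℝ =>
      f (γ * -(Real.cos (Real.pi * φ) / Real.sin (Real.pi * φ))) :=
    hf.comp (by fun_prop)
  have hfin : volume (Ioc (0 : ℝ) 1) ≠ ⊤ := by rw [Real.volume_Ioc]; exact ENNReal.ofReal_ne_top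
  have hi1 : IntegrableOn (fun φ : ℝ => f (γ * T (Real.pi * τ) (2 * Real.pi * φ)))
      (Ioc (0 : ℝ) 1) :=
    Measure.integrableOn_of_bounded hfin hm1.aestronglyMeasurable
      (Filter.Eventually.of_forall fun φ => hF _)
  have hi2 : IntegrableOn (fun φ : ℝ =>
      f (γ * -(Real.cos (Real.pi * φ) / Real.sin (Real.pi * φ)))) (Ioc (0 : ℝ) 1) :=
    Measure.integrableOn_of_bounded hfin hm2.aestronglyMeasurable
      (Filter.Eventually.of_forall fun φ => hF _)
  rw [← integral_sub hi1 hi2]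
  set S : Set ℝ := {φ : ℝ | φ ∈ Ioc (0 : ℝ) 1 ∧
    Real.cos (Real.pi * τ) < Real.cos (2 * Real.pi * φ)} with hS
  have hSm : MeasurableSet S := by
    have hmc : Measurable fun φ : ℝ => Real.cos (2 * Real.pi * φ) := by fun_prop
    exact measurableSet_Ioc.inter (measurableSet_lt measurable_const hmc)
  have hSI : S ⊆ Ioc (0 : ℝ) 1 := fun φ hφ => hφ.1
  have hset := setIntegral_eq_of_subset_of_forall_sdiff_eq_zero (μ := volume)
    (f := fun φ : ℝ => f (γ * T (Real.pi * τ) (2 * Real.pi * φ)) -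
      f (γ * -(Real.cos (Real.pi * φ) / Real.sin (Real.pi * φ)))) measurableSet_Ioc hSI
    (fun φ hφ => by
      have h2 : Real.cos (2 * Real.pi * φ) ≤ Real.cos (Real.pi * τ) := by
        by_contra hcon
        push Not at hcon
        exact hφ.2 ⟨hφ.1, hcon⟩
      have h3 := lt_one_of hα0 hα1 hφ.1.2 h2
      rw [T_reg hφ.1.1 h3 h2, sub_self])
  rw [hset]
  have hv := vol_short h0 h1
  have hvr : volume.real S ≤ τ := by
    rw [Measure.real]
    exact ENNReal.toReal_le_of_le_ofReal h0.le hv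
  refine (norm_setIntegral_le_of_norm_le_const (C := 2 * F)
    (hv.trans_lt ENNReal.ofReal_lt_top) (fun φ _ => ?_)).trans ?_
  · refine (norm_sub_le _ _).trans ?_
    linarith [hF (γ * T (Real.pi * τ) (2 * Real.pi * φ)),
      hF (γ * -(Real.cos (Real.pi * φ) / Real.sin (Real.pi * φ)))]
  · calc 2 * F * volume.real S ≤ 2 * F * τ := mul_le_mul_of_nonneg_left hvr (by linarith)
      _ = 2 * τ * F := by ring

/-- the bound in `L^p` -/
theorem lp {γ τ p : ℝ} (hγ : 0 < γ) (h0 : 0 < τ) (h1 : τ ≤ 1 / 2) (hp1 : 1 < p) (hp2 : p < 2) :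
    ∫ φ in Ioc (0 : ℝ) 1, |γ * T (Real.pi * τ) (2 * Real.pi * φ)| ^ p
      ≤ 2 * γ ^ p * τ ^ (1 - p) / (p - 1) := by
  have hπ := Real.pi_pos
  have hα0 : 0 < Real.pi * τ := mul_pos hπ h0
  have hα1 : Real.pi * τ ≤ Real.pi / 2 := by nlinarith
  set u : ℝ → ℝ := fun φ => |γ * T (Real.pi * τ) (2 * Real.pi * φ)| ^ p with hu
  have hcont : Continuous u := by
    refine Continuous.rpow_const ?_ fun φ => Or.inr (by linarith)
    exact (continuous_const.mul ((T_cont hα0 hα1).comp (by fun_prop))).abs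
  have hsymm : ∀ φ, u (1 - φ) = u φ := by
    intro φ
    simp only [hu]
    rw [T_odd, mul_neg, abs_neg]
  have e1 : ∫ φ in Ioc (0 : ℝ) 1, u φ = 2 * ∫ φ in (0 : ℝ)..(1 / 2), u φ := by
    rw [← intervalIntegral.integral_of_le zero_le_one,
      ← intervalIntegral.integral_add_adjacent_intervals (b := 1 / 2)
        (hcont.intervalIntegrable _ _) (hcont.intervalIntegrable _ _)]
    have e2 : ∫ φ in (1 / 2 : ℝ)..1, u φ = ∫ φ in (0 : ℝ)..(1 / 2), u φ := by
      have h3 := intervalIntegral.integral_comp_sub_left u (a := 0) (b := 1 / 2) 1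
      simp only [hsymm] at h3
      rw [h3]
      norm_num
    rw [e2]
    ring
  rw [e1]
  have hle1 : ∫ φ in (0 : ℝ)..(τ / 2), u φ ≤ τ / 2 * (γ * (2 / (Real.pi * τ))) ^ p := by
    have h3 : ∫ φ in (0 : ℝ)..(τ / 2), u φ ≤
        ∫ φ in (0 : ℝ)..(τ / 2), (γ * (2 / (Real.pi * τ))) ^ p := by
      refine intervalIntegral.integral_mono_on (by linarith) (hcont.intervalIntegrable _ _)
        intervalIntegrable_const fun φ _ => ?_
      refine Real.rpow_le_rpow (abs_nonneg _) ?_ (by linarith)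
      rw [abs_mul, abs_of_pos hγ]
      exact mul_le_mul_of_nonneg_left ((T_le hα0 hα1 _).trans (mm_le hα0 hα1)) hγ.le
    rw [intervalIntegral.integral_const, smul_eq_mul, sub_zero] at h3
    exact h3
  have hle2 : ∫ φ in (τ / 2 : ℝ)..(1 / 2), u φ ≤
      (γ / Real.pi) ^ p * ((τ / 2) ^ (1 - p) / (p - 1)) := by
    have hint : IntervalIntegrable (fun φ : ℝ => (γ / Real.pi) ^ p * φ ^ (-p)) volume
        (τ / 2) (1 / 2) := by
      refine IntervalIntegrable.const_mul ?_ _
      refine intervalIntegral.intervalIntegrable_rpow (Or.inr ?_)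
      rw [uIcc_of_le (by linarith)]
      intro h
      linarith [h.1]
    have h3 : ∫ φ in (τ / 2 : ℝ)..(1 / 2), u φ ≤
        ∫ φ in (τ / 2 : ℝ)..(1 / 2), (γ / Real.pi) ^ p * φ ^ (-p) := by
      refine intervalIntegral.integral_mono_on (by linarith) (hcont.intervalIntegrable _ _)
        hint fun φ hφ => ?_
      have hφ0 : 0 < φ := by linarith [hφ.1]
      have h4 : u φ ≤ (γ * (1 / (Real.pi * φ))) ^ p := by
        refine Real.rpow_le_rpow (abs_nonneg _) ?_ (by linarith)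
        rw [abs_mul, abs_of_pos hγ]
        exact mul_le_mul_of_nonneg_left (T_le' hα0 hα1 hφ0 hφ.2) hγ.le
      refine h4.trans (le_of_eq ?_)
      have h5 : γ * (1 / (Real.pi * φ)) = γ / Real.pi * φ⁻¹ := by field_simp
      rw [h5, Real.mul_rpow (by positivity) (by positivity), Real.inv_rpow hφ0.le,
        ← Real.rpow_neg hφ0.le]
    refine h3.trans ?_
    rw [intervalIntegral.integral_const_mul, integral_rpow (Or.inr ⟨by linarith, ?_⟩)]
    · refine mul_le_mul_of_nonneg_left ?_ (by positivity)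
      have h6 : ((1 / 2 : ℝ) ^ (-p + 1) - (τ / 2) ^ (-p + 1)) / (-p + 1) =
          ((τ / 2) ^ (1 - p) - (1 / 2) ^ (1 - p)) / (p - 1) := by
        rw [show -p + 1 = 1 - p by ring, ← neg_sub (1 : ℝ) p, div_neg, ← neg_div, neg_sub]
      rw [h6]
      refine div_le_div_of_nonneg_right ?_ (by linarith)
      have : (0 : ℝ) ≤ (1 / 2) ^ (1 - p) := by positivity
      linarith
    · rw [uIcc_of_le (by linarith)]
      intro h
      linarith [h.1]
  have hsum : ∫ φ in (0 : ℝ)..(1 / 2), u φ = (∫ φ in (0 : ℝ)..(τ / 2), u φ) +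
      ∫ φ in (τ / 2 : ℝ)..(1 / 2), u φ :=
    (intervalIntegral.integral_add_adjacent_intervals (hcont.intervalIntegrable _ _)
      (hcont.intervalIntegrable _ _)).symm
  set Z : ℝ := (γ / Real.pi) ^ p * (τ / 2) ^ (1 - p) with hZ
  have hZ1 : τ / 2 * (γ * (2 / (Real.pi * τ))) ^ p = Z := by
    have e2 : γ * (2 / (Real.pi * τ)) = γ / Real.pi * (τ / 2)⁻¹ := by field_simp
    have e3 : (τ / 2) ^ (1 - p) = τ / 2 * (τ / 2) ^ (-p) := by
      rw [show 1 - p = 1 + -p by ring, Real.rpow_add (by positivity), Real.rpow_one]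
    rw [e2, Real.mul_rpow (by positivity) (by positivity), Real.inv_rpow (by positivity),
      ← Real.rpow_neg (by positivity), hZ, e3]
    ring
  have hZ2 : Z ≤ γ ^ p * τ ^ (1 - p) / 2 := by
    have e2 : (2 : ℝ) ^ (1 - p) = 2 / 2 ^ p := by
      rw [Real.rpow_sub (by norm_num), Real.rpow_one]
    have hpow : (2 : ℝ) ^ p ≤ Real.pi ^ p :=
      Real.rpow_le_rpow (by norm_num) (by linarith [Real.pi_gt_three]) (by linarith)
    have h2p : (0 : ℝ) < 2 ^ p := by positivity
    have hπp : (0 : ℝ) < Real.pi ^ p := by positivity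
    have hγp : (0 : ℝ) < γ ^ p := by positivity
    have hτp : (0 : ℝ) < τ ^ (1 - p) := by positivity
    rw [hZ, Real.div_rpow hγ.le hπ.le, Real.div_rpow h0.le (by norm_num), e2]
    have e3 : γ ^ p / Real.pi ^ p * (τ ^ (1 - p) / (2 / 2 ^ p)) =
        γ ^ p * τ ^ (1 - p) / 2 * (2 ^ p / Real.pi ^ p) := by field_simp
    rw [e3]
    have h4 : (2 : ℝ) ^ p / Real.pi ^ p ≤ 1 := by rwa [div_le_one hπp]
    have h5 : 0 ≤ γ ^ p * τ ^ (1 - p) / 2 := by positivity
    calc _ ≤ γ ^ p * τ ^ (1 - p) / 2 * 1 := mul_le_mul_of_nonneg_left h4 h5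
      _ = _ := mul_one _
  have hZ0 : 0 ≤ Z := by positivity
  have hp : 0 < p - 1 := by linarith
  have h7 : (γ / Real.pi) ^ p * ((τ / 2) ^ (1 - p) / (p - 1)) = Z / (p - 1) := by
    rw [hZ]; ring
  rw [h7] at hle2
  rw [hZ1] at hle1
  rw [hsum, le_div_iff₀ hp]
  have h8 : ((∫ φ in (0 : ℝ)..(τ / 2), u φ) + ∫ φ in (τ / 2 : ℝ)..(1 / 2), u φ) ≤
      Z + Z / (p - 1) := add_le_add hle1 hle2
  have h9 : (Z + Z / (p - 1)) * (p - 1) = Z * p := by field_simp; ring
  nlinarith [mul_le_mul_of_nonneg_right h8 hp.le]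

theorem psi_isLv (α : ℝ) (h0 : 0 < α) (h1 : α ≤ Real.pi / 2) : IsLv (psi α h0 h1) where
  bound := by
    intro t
    induction t using QuotientAddGroup.induction_on with
    | H φ =>
      have e := psi_coe α h0 h1 φ
      rw [e, abs_div, abs_of_pos (mm_pos h0 h1), div_le_one (mm_pos h0 h1)]
      exact T_le h0 h1 _
  atom := by
    intro a
    refine Set.Finite.measure_zero ?_ _
    refine (level h0 h1 (a * mm α)).subset ?_
    rintro φ ⟨hφ, ha⟩
    refine ⟨hφ, ?_⟩
    rw [psi_coe, div_eq_iff (mm_pos h0 h1).ne'] at ha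
    exact ha

theorem hold (α : ℝ) (h0 : 0 < α) (h1 : α ≤ Real.pi / 2) : ∃ C : ℝ, ∀ s t : ℝ,
    |psi α h0 h1 (s : UnitAddCircle) - psi α h0 h1 (t : UnitAddCircle)| ≤
      C * |s - t| ^ (2 / 3 : ℝ) := by
  have hc := c0_pos h0 h1
  have hm := mm_pos h0 h1
  have hπ := Real.pi_pos
  set L : ℝ := (1 / (1 - Real.cos α) + 1 / (1 - Real.cos α) ^ 2) * (2 * Real.pi) / mm α with hL
  have hL0 : 0 ≤ L := by positivity
  refine ⟨L + 2, fun s t => ?_⟩
  have hst := abs_nonneg (s - t)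
  rcases le_total |s - t| 1 with h | h
  · have e1 : |psi α h0 h1 (s : UnitAddCircle) - psi α h0 h1 (t : UnitAddCircle)| ≤
        L * |s - t| := by
      rw [psi_coe, psi_coe, ← sub_div, abs_div, abs_of_pos hm, div_le_iff₀ hm]
      refine (T_lip h0 h1 _ _).trans (le_of_eq ?_)
      rw [← mul_sub, abs_mul, abs_of_pos (by positivity : (0 : ℝ) < 2 * Real.pi), hL]
      field_simp
    have e2 : |s - t| ≤ |s - t| ^ (2 / 3 : ℝ) := by
      have := Real.rpow_le_rpow_of_exponent_ge' hst h (by norm_num : (0 : ℝ) ≤ 2 / 3)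
        (by norm_num : (2 / 3 : ℝ) ≤ 1)
      rwa [Real.rpow_one] at this
    have e3 : 0 ≤ |s - t| ^ (2 / 3 : ℝ) := Real.rpow_nonneg hst _
    nlinarith [mul_le_mul_of_nonneg_left e2 hL0]
  · have b := (psi_isLv α h0 h1).bound
    have e1 : |psi α h0 h1 (s : UnitAddCircle) - psi α h0 h1 (t : UnitAddCircle)| ≤ 2 := by
      refine (abs_sub _ _).trans ?_
      linarith [b (s : UnitAddCircle), b (t : UnitAddCircle)]
    have e2 : 1 ≤ |s - t| ^ (2 / 3 : ℝ) := Real.one_le_rpow h (by norm_num)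
    nlinarith [mul_le_mul_of_nonneg_left e2 hL0]

theorem mean (α : ℝ) (h0 : 0 < α) (h1 : α ≤ Real.pi / 2) :
    (∫ φ in Set.Ioc (0 : ℝ) 1, psi α h0 h1 (φ : UnitAddCircle)) = 0 := by
  simp only [psi_coe]
  rw [← intervalIntegral.integral_of_le zero_le_one]
  have h3 := intervalIntegral.integral_comp_sub_left
    (fun φ : ℝ => T α (2 * Real.pi * φ) / mm α) (a := 0) (b := 1) 1
  simp only [T_odd, neg_div, intervalIntegral.integral_neg, sub_self, sub_zero] at h3
  linarith

theorem main : S_TAN2 := by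
  intro γ τ hγ h0 h1
  have hπ := Real.pi_pos
  have hα0 : 0 < Real.pi * τ := mul_pos hπ h0
  have hα1 : Real.pi * τ ≤ Real.pi / 2 := by nlinarith
  have hm := mm_pos hα0 hα1
  have e : ∀ φ : ℝ, γ * mm (Real.pi * τ) *
      psi (Real.pi * τ) hα0 hα1 (φ : UnitAddCircle) =
      γ * T (Real.pi * τ) (2 * Real.pi * φ) := by
    intro φ
    rw [psi_coe]
    field_simp
  refine ⟨psi (Real.pi * τ) hα0 hα1, γ * mm (Real.pi * τ), psi_isLv _ hα0 hα1,
    mul_pos hγ hm, hold _ hα0 hα1, mean _ hα0 hα1, ?_, ?_⟩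
  · intro f F hf hF
    have hmeas : Measurable fun φ : ℝ => γ * mm (Real.pi * τ) *
        psi (Real.pi * τ) hα0 hα1 (φ : UnitAddCircle) := by
      simp only [e]
      exact (((T_cont hα0 hα1).measurable).comp (by fun_prop)).const_mul γ
    unfold lev
    rw [integral_map hmeas.aemeasurable hf.aestronglyMeasurable]
    simp only [e]
    exact close h0 h1 f F hf hF
  · intro p hp1 hp2
    simp only [e]
    exact lp hγ h0 h1 hp1 hp2

end

end Pool.Agent.N457.NP.TAN2
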